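import Pool.Agent.Helper31.BQ.Stmts2

/-! # BQ row CM: the combinatorial data -/

set_option autoImplicit false

namespace Pool.Agent.Helper29.BQ

open Filter Topology Pool.Agent.Helper31.BQ

theorem cm_signs (hHO : ST_HO) (k : ℕ) (τ : Fin (2 ^ (k + 1)) → GG k → ℝ)
    (σ : Fin (2 ^ (k + 1)) → GG (k + 1) → ℝ) (hτ : ∀ i g, |τ i g| = 1)
    (hσ : ∀ i g, |σ i g| = 1) :
    ∃ ε : Fin (2 ^ (k + 1)) → ℝ, (∀ i, ε i = 1 ∨ ε i = -1) ∧
      ∀ g h, |∑ j, τ j g * (ε j * σ j h)| ≤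
        2 * Real.sqrt ((2 : ℝ) ^ (k + 1) * (2 * (k : ℝ) + 6)) := by
  obtain ⟨ω, hω⟩ := hHO (Fin (2 ^ (k + 1))) Bool (GG k × GG (k + 1))
    (fun i o p => τ i p.1 * ((if o then (1 : ℝ) else -1) * σ i p.2))
    (by
      intro i o p
      rw [abs_mul, abs_mul, hτ, hσ]
      cases o <;> simp)
    (by
      intro i p
      simp)
  refine ⟨fun i => if ω i then (1 : ℝ) else -1, ?_, ?_⟩
  · intro i
    by_cases h : ω i = true
    · left
      simp [h]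
    · right
      simp [h]
  · intro g h
    have h1 := hω (g, h)
    refine h1.trans ?_
    have hcard : (Fintype.card (GG k × GG (k + 1)) : ℝ) = (2 : ℝ) ^ (2 * k + 5) := by
      rw [Fintype.card_prod]
      simp only [GG, Fintype.card_pi, Fintype.card_bool, Finset.prod_const, Finset.card_univ,
        Fintype.card_fin]
      push_cast
      ring
    have hlog : Real.log (2 * (Fintype.card (GG k × GG (k + 1)) : ℝ)) ≤ 2 * (k : ℝ) + 6 := by
      rw [hcard, ← pow_succ', Real.log_pow]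
      have h2 : Real.log 2 ≤ 1 := by
        have := Real.log_two_lt_d9
        linarith
      have h3 : (0 : ℝ) ≤ ((2 * k + 5 + 1 : ℕ) : ℝ) := by positivity
      calc ((2 * k + 5 + 1 : ℕ) : ℝ) * Real.log 2 ≤ ((2 * k + 5 + 1 : ℕ) : ℝ) * 1 :=
            mul_le_mul_of_nonneg_left h2 h3
        _ = 2 * (k : ℝ) + 6 := by push_cast; ring
    have hI : (Fintype.card (Fin (2 ^ (k + 1))) : ℝ) = (2 : ℝ) ^ (k + 1) := by
      rw [Fintype.card_fin]
      push_cast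
      ring
    rw [hI]
    have h4 : (2 : ℝ) ^ (k + 1) * Real.log (2 * (Fintype.card (GG k × GG (k + 1)) : ℝ)) ≤
        (2 : ℝ) ^ (k + 1) * (2 * (k : ℝ) + 6) :=
      mul_le_mul_of_nonneg_left hlog (by positivity)
    have h5 := Real.sqrt_le_sqrt h4
    linarith

/-- all signs -/
noncomputable def cm_s (ε : ∀ k : ℕ, Fin (2 ^ (k + 1)) → ℝ) : ∀ k : ℕ, Fin (2 ^ k) → ℝ
  | 0 => fun _ => 1
  | (k + 1) => ε k

theorem cm_s_sq (ε : ∀ k : ℕ, Fin (2 ^ (k + 1)) → ℝ) (h : ∀ k i, ε k i = 1 ∨ ε k i = -1) :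
    ∀ k i, cm_s ε k i = 1 ∨ cm_s ε k i = -1
  | 0, _ => Or.inl rfl
  | (k + 1), i => h k i

theorem cm_bound (k : ℕ) : ((2 : ℝ) ^ (k + 1))⁻¹ *
    (2 * Real.sqrt ((2 : ℝ) ^ (k + 1) * (2 * (k : ℝ) + 6))) ≤
      6 * ((k : ℝ) + 1) * (Real.sqrt 2)⁻¹ ^ k := by
  have hs : 0 < Real.sqrt 2 := Real.sqrt_pos.2 (by norm_num)
  have hss : Real.sqrt 2 ^ 2 = 2 := Real.sq_sqrt (by norm_num)
  have h1 : Real.sqrt ((2 : ℝ) ^ (k + 1) * (2 * (k : ℝ) + 6)) =
      Real.sqrt 2 ^ (k + 1) * Real.sqrt (2 * (k : ℝ) + 6) := by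
    rw [Real.sqrt_mul (by positivity)]
    congr 1
    rw [Real.sqrt_eq_iff_eq_sq (by positivity) (by positivity), ← pow_mul, mul_comm (k + 1) 2,
      pow_mul, hss]
  have h2 : Real.sqrt (2 * (k : ℝ) + 6) ≤ 3 * ((k : ℝ) + 1) := by
    rw [Real.sqrt_le_left (by positivity)]
    nlinarith [(Nat.cast_nonneg k : (0 : ℝ) ≤ k)]
  have h3 : ((2 : ℝ) ^ (k + 1))⁻¹ * (2 * (Real.sqrt 2 ^ (k + 1) * (3 * ((k : ℝ) + 1)))) =
      6 * ((k : ℝ) + 1) * (Real.sqrt 2)⁻¹ ^ (k + 1) := by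
    have h4 : (2 : ℝ) ^ (k + 1) = Real.sqrt 2 ^ (k + 1) * Real.sqrt 2 ^ (k + 1) := by
      rw [← mul_pow, ← sq, hss]
    rw [h4, inv_pow]
    have : Real.sqrt 2 ^ (k + 1) ≠ 0 := by positivity
    field_simp
    ring
  have h5 : (Real.sqrt 2)⁻¹ ^ (k + 1) ≤ (Real.sqrt 2)⁻¹ ^ k := by
    apply pow_le_pow_of_le_one (by positivity) _ (Nat.le_succ k)
    apply inv_le_one_of_one_le₀
    rw [Real.one_le_sqrt]
    norm_num
  rw [h1]
  calc ((2 : ℝ) ^ (k + 1))⁻¹ * (2 * (Real.sqrt 2 ^ (k + 1) * Real.sqrt (2 * (k : ℝ) + 6)))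
      ≤ ((2 : ℝ) ^ (k + 1))⁻¹ * (2 * (Real.sqrt 2 ^ (k + 1) * (3 * ((k : ℝ) + 1)))) := by
        gcongr
    _ = 6 * ((k : ℝ) + 1) * (Real.sqrt 2)⁻¹ ^ (k + 1) := h3
    _ ≤ 6 * ((k : ℝ) + 1) * (Real.sqrt 2)⁻¹ ^ k :=
        mul_le_mul_of_nonneg_left h5 (by positivity)

theorem cm_summable (D : ℝ) : Summable fun k : ℕ =>
    ((k : ℝ) + 4) * (D * ((k : ℝ) + 1) * (Real.sqrt 2)⁻¹ ^ k) := by
  have hr : ‖(Real.sqrt 2)⁻¹‖ < 1 := by
    rw [Real.norm_of_nonneg (by positivity)]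
    apply inv_lt_one_of_one_lt₀
    rw [Real.lt_sqrt zero_le_one]
    norm_num
  have h2 := summable_pow_mul_geometric_of_norm_lt_one 2 hr
  have h1 := summable_pow_mul_geometric_of_norm_lt_one 1 hr
  have h0 := summable_pow_mul_geometric_of_norm_lt_one 0 hr
  have h := ((h2.add (h1.mul_left 5)).add (h0.mul_left 4)).mul_left D
  refine h.congr fun k => ?_
  ring

theorem st_CM (hHO : ST_HO) (hSG : ST_SG) : ST_CM := by
  obtain ⟨C, hC⟩ := hSG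
  choose σ0 τ h1 h2 h3 h4 h5 h6 using hC
  have hsg := fun k => cm_signs hHO k (τ k) (σ0 (k + 1)) (h2 k) (h1 (k + 1))
  choose ε hε1 hε2 using hsg
  have hs := cm_s_sq ε hε1
  have hsa : ∀ k i, |cm_s ε k i| = 1 := by
    intro k i
    rcases hs k i with h | h <;> rw [h] <;> simp
  have hss : ∀ k i, cm_s ε k i * cm_s ε k i = 1 := by
    intro k i
    rcases hs k i with h | h <;> rw [h] <;> norm_num
  refine ⟨fun k i g => cm_s ε k i * σ0 k i g, τ,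
    fun k => (|C| + 6) * ((k : ℝ) + 1) * (Real.sqrt 2)⁻¹ ^ k, ?_, h2, ?_, h4, ?_, ?_, ?_, ?_, ?_⟩
  · intro k i g
    rw [abs_mul, hsa, h1, one_mul]
  · intro k i i'
    have e : ∑ g, cm_s ε k i * σ0 k i g * (cm_s ε k i' * σ0 k i' g) =
        cm_s ε k i * cm_s ε k i' * ∑ g, σ0 k i g * σ0 k i' g := by
      rw [Finset.mul_sum]
      exact Finset.sum_congr rfl fun g _ => by ring
    rw [e, h3]
    by_cases hi : i = i'
    · subst hi
      rw [hss, one_mul]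
    · rw [if_neg hi, mul_zero]
  · intro k i j
    have e : ∑ g, cm_s ε k i * σ0 k i g * τ k j g =
        cm_s ε k i * ∑ g, σ0 k i g * τ k j g := by
      rw [Finset.mul_sum]
      exact Finset.sum_congr rfl fun g _ => by ring
    rw [e, h5, mul_zero]
  · intro k g h
    have e : ∑ i, cm_s ε k i * σ0 k i g * (cm_s ε k i * σ0 k i h) =
        ∑ i, σ0 k i g * σ0 k i h := by
      refine Finset.sum_congr rfl fun i _ => ?_
      have := hss k i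
      linear_combination (σ0 k i g * σ0 k i h) * this
    rw [e]
    refine (h6 k g h).trans ?_
    have hC1 : C ≤ |C| + 6 := by
      have := le_abs_self C
      linarith
    have h7 : 0 ≤ ((k : ℝ) + 1) * (Real.sqrt 2)⁻¹ ^ k := by positivity
    have h8 := mul_le_mul_of_nonneg_right hC1 h7
    calc C * ((k : ℝ) + 1) * (Real.sqrt 2)⁻¹ ^ k = C * (((k : ℝ) + 1) * (Real.sqrt 2)⁻¹ ^ k) := by
          ring
      _ ≤ (|C| + 6) * (((k : ℝ) + 1) * (Real.sqrt 2)⁻¹ ^ k) := h8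
      _ = (|C| + 6) * ((k : ℝ) + 1) * (Real.sqrt 2)⁻¹ ^ k := by ring
  · intro k g h
    have e : ∑ j, τ k j g * (cm_s ε (k + 1) j * σ0 (k + 1) j h) =
        ∑ j, τ k j g * (ε k j * σ0 (k + 1) j h) := rfl
    rw [e, abs_mul, abs_of_nonneg (by positivity : (0 : ℝ) ≤ ((2 : ℝ) ^ (k + 1))⁻¹)]
    calc ((2 : ℝ) ^ (k + 1))⁻¹ * |∑ j, τ k j g * (ε k j * σ0 (k + 1) j h)|
        ≤ ((2 : ℝ) ^ (k + 1))⁻¹ *
            (2 * Real.sqrt ((2 : ℝ) ^ (k + 1) * (2 * (k : ℝ) + 6))) :=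
          mul_le_mul_of_nonneg_left (hε2 k g h) (by positivity)
      _ ≤ 6 * ((k : ℝ) + 1) * (Real.sqrt 2)⁻¹ ^ k := cm_bound k
      _ ≤ (|C| + 6) * ((k : ℝ) + 1) * (Real.sqrt 2)⁻¹ ^ k := by
          have := abs_nonneg C
          gcongr
          linarith
  · intro k
    positivity
  · exact cm_summable (|C| + 6)

end Pool.Agent.Helper29.BQ
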